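import Pool.Agent.Run7.h659.VA8

/-!
# The period torsors of products of cyclic covers `y ^ N = ∏ (x - a_i) (x - z)` at the points `z = 1 / t`

For nonzero real algebraic numbers `a_0 < … < a_(n+1)` let `C_z` be the curve `y ^ N = ∏ (x - a_i) (x - z)`, a family over
the `z`-line, and let `e_0 < … < e_(n+2)` be the real numbers `a_i` and `z`, in increasing order. For `ρ = k / N` the
integrals of `x ^ j dx / |y| ^ k = x ^ j ∏ |x - e_i| ^ (- ρ) dx`, `0 ≤ j < n + 2`, from `e_l` to `e_(l+1)`,
`0 ≤ l < n + 2`, form a matrix `P_ρ`. If `(n + 3) ρ` is not an integer they are, up to factors (roots of unity minus one),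
the periods of the part of `H¹(C_z)` with the corresponding character, and the parts for `1 - ρ` are dual to the parts for
`ρ`. We take `ρ < 1 / 2`, and denominators different from `4`, `6` and `10`.

We consider `p` such families (which may be equal or different, with arbitrary numbers of branch points) and the products
of their fibres over the points `1 / t_1, …, 1 / t_p`. For given finite sets of characters, number field `K`, degree `δ`
and complex numbers `ξ_i`, all `p`-tuples `(t_1, …, t_p)` of integers in `[2, T]` but at most `C T ^ (p - c)` have the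
following property: if a polynomial of degree at most `δ` over `K` (with arbitrary coefficients) vanishes at the numbers
`ξ_i` and at the matrices `P_(l,ρ)(1 / t_l)`, for all the families `l` and all the characters `ρ`, it vanishes at all
systems of matrices `X_(l,ρ)` with `det X_(l,ρ) = det P_(l,ρ)(1 / t_l)`. So there are no relations between the periods of
different fibres, or of fibres of different families, or of different characters, up to determinants; the numbers
`det P_ρ` are algebraic multiples of products of values of the Gamma function at rational points.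
-/

set_option autoImplicit false

open Pool.Agent.Run7.h659

namespace Pool.Agent.Results.MP_cbf1af_ag.CyclicCoverProducts

/-- the branch points: the numbers `a i` and, at the place `m`, the number `z` -/
noncomputable def branch {n : ℕ} (a : Fin n → ℝ) (m : Fin (n + 1)) (z : ℝ) : Fin (n + 1) → ℝ :=
  Fin.insertNth (α := fun _ => ℝ) m z a

/-- the matrix `P_ρ` of the integrals of `x ^ j dx / ∏ |x - e_i| ^ ρ` from `e_l` to `e_(l+1)`, `0 ≤ l, j < n` -/
noncomputable def periods {n : ℕ} (ρ : ℚ) (e : Fin (n + 1) → ℝ) : Matrix (Fin n) (Fin n) ℝ :=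
  Matrix.of fun l j => ∫ x in (e l.castSucc)..(e l.succ), x ^ (j : ℕ) / ∏ i, |x - e i| ^ (ρ : ℝ)

/-- the characters: rational numbers `ρ` in `(0, 1 / 2)` with denominator different from `4`, `6`, `10`, such that
`(n + 1) ρ` is not an integer -/
def Admissible (n : ℕ) (ρ : ℚ) : Prop :=
  0 < ρ ∧ ρ < 1 / 2 ∧ ρ.den ≠ 4 ∧ ρ.den ≠ 6 ∧ ρ.den ≠ 10 ∧ ∀ b : ℤ, ((n : ℚ) + 1) * ρ ≠ b

/-- a family of cyclic covers with the fixed branch points `a_0 < … < a_(n+1)` (nonzero real algebraic numbers, `m` the
place of `0` between them) and one moving branch point, and a finite set `E` of characters -/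
structure Family where
  n : ℕ
  a : Fin (n + 2) → ℝ
  mono : StrictMono a
  alg : ∀ i, IsAlgebraic ℚ (a i)
  m : Fin (n + 3)
  zero : StrictMono (branch a m 0)
  E : Finset ℚ
  adm : ∀ ρ ∈ E, Admissible (n + 2) ρ

variable {p s : ℕ} (F : Fin p → Family)

/-- the names of the periods of all the families -/
abbrev Ind : Type := Σ l, (F l).E × Fin ((F l).n + 2) × Fin ((F l).n + 2)

/-- a matrix for every family and every character -/
abbrev Mat : Type := ∀ l, (F l).E → Matrix (Fin ((F l).n + 2)) (Fin ((F l).n + 2)) ℂ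

/-- the value of the polynomial `G` at the numbers `ξ i` and at the entries of the matrices `X l ρ` -/
noncomputable def value {K : Type} [Field K] [Algebra K ℂ] (G : MvPolynomial (Fin s ⊕ Ind F) K) (ξ : Fin s → ℂ)
    (X : Mat F) : ℂ :=
  MvPolynomial.aeval (Sum.elim ξ fun v => X v.1 v.2.1 v.2.2.1 v.2.2.2) G

/-- the matrices of periods of the fibres over `1 / t_l` -/
noncomputable def matrices (t : Fin p → ℕ) : Mat F := fun l ρ =>
  (periods ρ (branch (F l).a (F l).m (1 / (t l : ℝ)))).map Complex.ofRealHom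

/-- the period conjecture in degree `δ` over `K`, relative to the numbers `ξ i`, up to determinants, for the product of the
fibres over `1 / t_1, …, 1 / t_p`: the numbers `1 / t_l` are at the place `m` between the `a_i`, the matrices of periods
are invertible, and every polynomial of total degree at most `δ` over `K` which vanishes at the numbers `ξ i` and at these
matrices vanishes for all matrices `X l ρ` with the same determinants -/
def Good (K : Type) [Field K] [Algebra K ℂ] (ξ : Fin s → ℂ) (δ : ℕ) (t : Fin p → ℕ) : Prop :=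
  (∀ l, StrictMono (branch (F l).a (F l).m (1 / (t l : ℝ)))) ∧ (∀ l ρ, (matrices F t l ρ).det ≠ 0) ∧
    ∀ G : MvPolynomial (Fin s ⊕ Ind F) K, G.totalDegree ≤ δ → value F G ξ (matrices F t) = 0 →
      ∀ X : Mat F, (∀ l ρ, (X l ρ).det = (matrices F t l ρ).det) → value F G ξ X = 0

theorem inGap_of {n : ℕ} {a : Fin n → ℝ} {m : Fin (n + 1)} {z : ℝ} (h : StrictMono (branch a m z)) :
    Pool.Agent.Y118.HP.InGap a m z := by
  have hm : branch a m z m = z := Fin.insertNth_apply_same (α := fun _ => ℝ) m z a
  have hi : ∀ i, branch a m z (m.succAbove i) = a i := fun i =>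
    Fin.insertNth_apply_succAbove (α := fun _ => ℝ) m z a i
  intro i
  constructor
  · intro h1
    have h2 := h ((Fin.succAbove_lt_iff_castSucc_lt m i).2 h1)
    rwa [hm, hi] at h2
  · intro h1
    have h2 := h ((Fin.lt_succAbove_iff_le_castSucc m i).2 h1)
    rwa [hm, hi] at h2

/-- the family in the form of the library -/
noncomputable def conv (A : Family) : VA.Cfam where
  n := A.n
  a := A.a
  k := A.E.card
  ρ := fun i => ((A.E.equivFin.symm i : A.E) : ℚ)
  m := A.m
  ha := A.mono
  alg := A.alg
  gap := inGap_of A.zero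
  adm := by
    refine ⟨fun i j hij => A.E.equivFin.symm.injective (Subtype.ext hij), fun i => ?_, fun i => ?_, fun i => ?_,
      fun i b => ?_⟩
    · exact (A.adm _ (A.E.equivFin.symm i).2).1
    · exact (A.adm _ (A.E.equivFin.symm i).2).2.1
    · exact ⟨(A.adm _ (A.E.equivFin.symm i).2).2.2.1, (A.adm _ (A.E.equivFin.symm i).2).2.2.2.1,
        (A.adm _ (A.E.equivFin.symm i).2).2.2.2.2.1⟩
    · exact (A.adm _ (A.E.equivFin.symm i).2).2.2.2.2.2 b

theorem good_of (K : Type) [Field K] [Algebra K ℂ] (ξ : Fin s → ℂ) (δ : ℕ) {r : ℝ}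
    (hball : ∀ l, Metric.ball (0 : ℂ) r ⊆ Pool.Agent.Y118.HP.Dm (F l).a (F l).m) {t : Fin p → ℕ}
    (ht : ∀ l, 1 / (t l : ℝ) < r) (h : VA.Inv (fun l => conv (F l)) K ξ δ fun l => 1 / (t l : ℂ)) :
    Good F K ξ δ t := by
  have hgap : ∀ l, Pool.Agent.Y118.HP.InGap (F l).a (F l).m (1 / (t l : ℝ)) := fun l =>
    VA.gap_of_ball (hball l) (ht l)
  have hmono : ∀ l, StrictMono (branch (F l).a (F l).m (1 / (t l : ℝ))) := fun l =>
    SE.strictMono_ins (F l).mono (hgap l)
  have hdet : ∀ l ρ, (matrices F t l ρ).det ≠ 0 := by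
    intro l ρ
    have h6 : (ρ : ℚ) < 1 := by
      have := ((F l).adm ρ ρ.2).2.1
      linarith
    have h7 : (matrices F t l ρ).det = Complex.ofRealHom
        (periods ρ (branch (F l).a (F l).m (1 / (t l : ℝ)))).det := (RingHom.map_det Complex.ofRealHom _).symm
    rw [h7]
    exact (map_ne_zero _).2 (VA.det_Rp (hmono l) h6)
  refine ⟨hmono, hdet, ?_⟩
  intro G hG hG0 X hX
  have hPF : ∀ l (ρ : (F l).E), VA.QQ (fun l => conv (F l)) (fun l => 1 / (t l : ℂ)) l ((F l).E.equivFin ρ) =
      matrices F t l ρ := by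
    intro l ρ
    have h6 := VA.PF_real (conv (F l)).ρ (F l).mono (hgap l) ((F l).E.equivFin ρ)
    have h7 : ((1 / (t l : ℝ) : ℝ) : ℂ) = 1 / (t l : ℂ) := by push_cast; rfl
    rw [h7] at h6
    refine h6.trans ?_
    have h8 : (conv (F l)).ρ ((F l).E.equivFin ρ) = (ρ : ℚ) := by
      show (((F l).E.equivFin.symm ((F l).E.equivFin ρ) : (F l).E) : ℚ) = ρ
      rw [Equiv.symm_apply_apply]
    rw [h8]
    rfl
  set f : Fin s ⊕ Ind F → VA.Vx (fun l => conv (F l)) s :=
    Sum.map id (fun v => ⟨v.1, (F v.1).E.equivFin v.2.1, v.2.2⟩) with hf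
  have hval : ∀ Y : VA.MM (fun l => conv (F l)) ℂ, MvPolynomial.aeval (VA.cv (fun l => conv (F l)) ξ Y)
      (MvPolynomial.rename f G) = value F G ξ (fun l ρ => Y l ((F l).E.equivFin ρ)) := by
    intro Y
    rw [MvPolynomial.aeval_rename]
    unfold value
    congr 2
    funext v
    rcases v with v | v
    · rfl
    · rfl
  have hv0 : MvPolynomial.aeval (VA.cv (fun l => conv (F l)) ξ (VA.QQ (fun l => conv (F l)) fun l => 1 / (t l : ℂ)))
      (MvPolynomial.rename f G) = 0 := by
    rw [hval, ← hG0]
    congr 1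
    funext l ρ
    exact hPF l ρ
  have h9 : ∀ l (ρ : (F l).E), (X l ρ * (matrices F t l ρ)⁻¹).det = 1 := by
    intro l ρ
    rw [Matrix.det_mul, Matrix.det_nonsing_inv, hX, Ring.inverse_eq_inv']
    exact mul_inv_cancel₀ (hdet _ _)
  have h10 : ∀ l (ρ : (F l).E), X l ρ * (matrices F t l ρ)⁻¹ * matrices F t l ρ = X l ρ := by
    intro l ρ
    rw [mul_assoc, Matrix.nonsing_inv_mul _ (hdet l ρ).isUnit, mul_one]
  have key := h (MvPolynomial.rename f G) ((MvPolynomial.totalDegree_rename_le _ _).trans hG) hv0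
    (fun l i => X l ((F l).E.equivFin.symm i) * (matrices F t l ((F l).E.equivFin.symm i))⁻¹)
    (fun l i => h9 l ((F l).E.equivFin.symm i))
  rw [hval] at key
  rw [← key]
  congr 1
  funext l ρ
  have h11 : X l ρ = X l ((F l).E.equivFin.symm ((F l).E.equivFin ρ)) *
      (matrices F t l ((F l).E.equivFin.symm ((F l).E.equivFin ρ)))⁻¹ * matrices F t l ρ := by
    rw [Equiv.symm_apply_apply, h10]
  refine h11.trans ?_
  exact congrArg (fun Y => X l ((F l).E.equivFin.symm ((F l).E.equivFin ρ)) *
      (matrices F t l ((F l).E.equivFin.symm ((F l).E.equivFin ρ)))⁻¹ * Y) (hPF l ρ).symm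

open Classical in
/-- Let `F_1, …, F_p` be families of cyclic covers, `K` a number field, `ξ_1, …, ξ_s` complex numbers and `δ` a degree.
All tuples `(t_1, …, t_p)` of integers in `[2, T]` but at most `C T ^ (p - c)` are good: the period conjecture in degree `δ`
over `K`, relative to the `ξ_i`, up to determinants holds for the product of the fibres over `1 / t_1, …, 1 / t_p`. -/
theorem result (hp : 0 < p) (K : Type) [Field K] [NumberField K] [Algebra K ℂ] (ξ : Fin s → ℂ) (δ : ℕ) :
    ∃ c : ℝ, 0 < c ∧ ∃ C : ℝ, ∀ T : ℕ, 1 ≤ T →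
      (((Fintype.piFinset fun _ : Fin p => Finset.Icc 2 T).filter fun t => ¬ Good F K ξ δ t).card : ℝ) ≤
        C * (T : ℝ) ^ ((p : ℝ) - c) := by
  obtain ⟨r, hr, hball, c, hc, C, hC⟩ := VA.prod_count (fun l => conv (F l)) K ⟨0, hp⟩ ξ δ
  refine ⟨c, hc, C, fun T hT => le_trans ?_ (hC T hT)⟩
  refine Nat.cast_le.2 (Finset.card_le_card fun t ht => ?_)
  obtain ⟨h1, h2⟩ := Finset.mem_filter.1 ht
  refine Finset.mem_filter.2 ⟨h1, fun hh => h2 ?_⟩
  exact good_of F K ξ δ hball hh.1 hh.2

end Pool.Agent.Results.MP_cbf1af_ag.CyclicCoverProducts
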