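import Pool.Agent.Run7.h225.HG.JD

/-!
# The torsors of periods of products of hypergeometric motives at algebraic points: windows

Let `α_1, …, α_n` be rational numbers which are not integers, `n ≥ 2`, `θ = z d/dz` and `Q(x) = ∏_j (x + α_j)`. We consider
the hypergeometric operators `θ^n - z Q(θ)`, with maximally unipotent monodromy at `z = 0`, the exponents `α_j` at infinity and
a pseudoreflection at `z = 1` of determinant `exp(2πi s)`, `s = ∑_j α_j`. Up to rational gauge transformations the equation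
depends only on the `α_j` modulo `ℤ`; we normalise them such that `s = 0` if `s` is an integer, `Q(-x) = Q(x)` if the equation
is self-dual and `n` is even, and `Q(-1-x) = -Q(x)` if it is self-dual and `n` is odd. The period matrices of the
corresponding families of motives at `z` near `0` are `A(z) Y(z) Ω` with the matrix `Y` of the derivatives of the Frobenius
solutions, `A` over a number field `(z)` and `Ω` constant (the periods of the limit). We take a finite list of such
equations, with exponents at infinity which are pairwise different modulo `ℤ` and different from those of the dual equations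
(and not both an equation of order `2` with a reflection of order two at `1` and a self-dual one of order `3`, see Clausen's
formula), so the direct sum of the motives at the same point `z`. The Zariski closure of the graph of the joint period
matrix has the fibre `T(z)` (one component): all tuples `(X_j)` with `det X_j = (1 - z)^(-s_j)` and the bilinear relations in
the self-dual cases. We prove for the algebraic points of bounded degree in short windows `z = 1 / (ξ - G u)` around every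
algebraic `1 / ξ` near `0`, up to a bounded number of points, that all relations of bounded degree over number fields of
bounded degree between the periods (and arbitrary further constants) hold on the whole torsor.
-/

set_option autoImplicit false

open PowerSeries Pool.Agent.Y119.HZ Pool.Agent.Run7.h225.HG

namespace Pool.Agent.Results.MP_cbf1af_ag.HypergeometricWindows

/-- A hypergeometric equation `θ^n f = z ∏_j (θ + α_j) f`. -/
structure Eqn where
  n : ℕ
  α : Fin n → ℚ

/-- the dual equation (the exponents at infinity are `-α_j`) -/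
def Eqn.dual (e : Eqn) : Eqn := ⟨e.n, fun j => -e.α j⟩

/-- the multiset of the fractional parts of the `α_j` -/
def Eqn.frac (e : Eqn) : Multiset ℚ := Multiset.map (fun j => Int.fract (e.α j)) Finset.univ.val

/-- the polynomial `Q = ∏_j (x + α_j)` -/
noncomputable def Eqn.poly (e : Eqn) : Polynomial ℚ := ∏ j, (Polynomial.X + Polynomial.C (e.α j))

/-- `Q(-x) = Q(x)` -/
def Eqn.Symplectic (e : Eqn) : Prop := e.poly.comp (-Polynomial.X) = e.poly

/-- `Q(-1-x) = -Q(x)` -/
def Eqn.Orthogonal (e : Eqn) : Prop := e.poly.comp (-(Polynomial.X + 1)) = -e.poly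

/-- The order is at least two, the exponents at infinity are not integers, their sum is `0` or not an integer, and either the
fractional parts of the `α_j` and of the `-α_j` are different multisets or `Q(-x) = Q(x)` or `Q(-1-x) = -Q(x)`. -/
def Eqn.Admissible (e : Eqn) : Prop :=
  2 ≤ e.n ∧ (∀ j, ∀ a : ℤ, e.α j ≠ a) ∧ (∑ j, e.α j = 0 ∨ ∀ a : ℤ, ∑ j, e.α j ≠ a) ∧
  (e.frac ≠ e.dual.frac ∨ e.Symplectic ∨ e.Orthogonal)

/-- The equations of a list are admissible, the exponents at infinity of different equations of the list, and of one of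
them and of the dual of another one, are different modulo `ℤ`, and the list does not contain both an equation of order two
such that `s = ∑_j α_j ≠ 0` and `2 s` is an integer and an equation of order three with `Q(-1-x) = -Q(x)`. -/
def Good {r : ℕ} (e : Fin r → Eqn) : Prop :=
  (∀ j, (e j).Admissible) ∧ (∀ i j, i ≠ j → (e i).frac ≠ (e j).frac ∧ (e i).frac ≠ (e j).dual.frac) ∧
  ∀ i j, (e i).n = 2 → (∃ a : ℤ, 2 * ∑ l, (e i).α l = a) → ∑ l, (e i).α l ≠ 0 → (e j).n = 3 → ¬ (e j).Orthogonal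

/-- the power series `k + ε` in the variable `ε` -/
noncomputable def shift (k : ℕ) : PowerSeries ℚ := C (k : ℚ) + X

/-- `a_k(ε) = ∏_{l < k} Q(l + ε) / (l + 1 + ε)^n`. The series `∑_k a_k(ε) z^(k + ε)` solves the equation
`(θ^n - z Q(θ)) f = ε^n z^ε`, hence its coefficients `f_j` at `ε^j` with `j < n` are solutions of the homogeneous
equation. -/
noncomputable def Eqn.frob (e : Eqn) (k : ℕ) : PowerSeries ℚ :=
  ∏ l ∈ Finset.range k, (Polynomial.aeval (shift l) e.poly * ((shift (l + 1))⁻¹) ^ e.n)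

/-- The matrix with the entries `(θ^i f_j)(z)` at `z = 1 / ξ`, where `f_j(z)` is the coefficient of `ε^j` in the series
`∑_k a_k(ε) z^(k + ε)`, `z^ε = ∑_a (log z)^a ε^a / a!`, with the value `-l` of `log z`, where `exp l = ξ`. -/
noncomputable def Eqn.Y (e : Eqn) (ξ l : ℂ) : Matrix (Fin e.n) (Fin e.n) ℂ :=
  Matrix.of fun i j => ∑ a ∈ Finset.range ((j : ℕ) + 1), (-l) ^ a / (a.factorial : ℂ) *
    ∑' k : ℕ, ((coeff ((j : ℕ) - a) (shift k ^ (i : ℕ) * e.frob k) : ℚ) : ℂ) * (1 / ξ) ^ k

/-- The matrix of the alternating form: the entry `(i, j)` is `(-1)^i q_{i+j+1-n}` for `i + j + 1 ≥ n` and `0`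
otherwise, where `q_l` are the coefficients of `Q`. -/
noncomputable def Eqn.J (e : Eqn) : Matrix (Fin e.n) (Fin e.n) ℂ :=
  Matrix.of fun i j => if e.n ≤ (i : ℕ) + j + 1 then (((-1) ^ (i : ℕ) * e.poly.coeff (i + j + 1 - e.n) : ℚ) : ℂ) else 0

/-- the polynomial `(Q(x) + Q(y)) / (x + y + 1)`, a polynomial in `y` with coefficients in `ℚ[x]` -/
noncomputable def lagrange (Q : Polynomial ℚ) : Polynomial (Polynomial ℚ) :=
  (Polynomial.C Q + Q.map Polynomial.C) /ₘ (Polynomial.X + Polynomial.C (Polynomial.X + 1))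

/-- The matrix of the symmetric form on the fibre at `z`: the entry `(i, j)` is the coefficient of `x^i y^j` in
`(x^n + y^n) / (x + y) - z (Q(x) + Q(y)) / (x + y + 1)`. -/
noncomputable def Eqn.B (e : Eqn) (z : ℂ) : Matrix (Fin e.n) (Fin e.n) ℂ :=
  Matrix.of fun i j => (if (i : ℕ) + j + 1 = e.n then (-1) ^ (i : ℕ) else 0) -
    z * ((((lagrange e.poly).coeff j).coeff i : ℚ) : ℂ)

/-- The torsor of the equation at `z`: the matrices `X` with `det X = (1 - z)^(-s)` (principal branch), `s = ∑_j α_j`, and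
`Xᵀ J X = J` if `Q(-x) = Q(x)`, and `Xᵀ B(z) X = B(0)` if `Q(-1-x) = -Q(x)`. -/
def Eqn.T (e : Eqn) (z : ℂ) : Set (Matrix (Fin e.n) (Fin e.n) ℂ) :=
  {X | X.det = Complex.exp (-((∑ j, e.α j : ℚ) : ℂ) * Complex.log (1 - z)) ∧
    (e.Symplectic → X.transpose * e.J * X = e.J) ∧ (e.Orthogonal → X.transpose * e.B z * X = e.B 0)}

/-- the coordinates of `k` numbers and `k` lists of matrices -/
abbrev Coord {r : ℕ} (e : Fin r → Eqn) (k : ℕ) : Type := Σ _ : Fin k, Option (Σ j : Fin r, Fin (e j).n × Fin (e j).n)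

/-- the point with the coordinates `l_i` and the entries of the matrices `X_ij` -/
def point {r k : ℕ} {e : Fin r → Eqn} (l : Fin k → ℂ) (X : Fin k → ∀ j, Matrix (Fin (e j).n) (Fin (e j).n) ℂ) :
    Coord e k → ℂ
  | ⟨i, none⟩ => l i
  | ⟨i, some ⟨j, p⟩⟩ => X i j p.1 p.2

/-- the coordinates of the constants: the entries of the `Ω_j` and `q` further numbers `w` -/
def consts {r q : ℕ} {e : Fin r → Eqn} (Ω : ∀ j, Matrix (Fin (e j).n) (Fin (e j).n) ℂ) (w : Fin q → ℂ) :
    (Σ j : Fin r, Fin (e j).n × Fin (e j).n) ⊕ Fin q → ℂ := Sum.elim (fun p => Ω p.1 p.2.1 p.2.2) w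

/-- `ξ` is a root of a nonzero integral polynomial of degree at most `g` with coefficients of size at most `|ξ|^A` -/
def Height (g A : ℕ) (ξ : ℂ) : Prop :=
  ∃ p : Polynomial ℤ, p ≠ 0 ∧ p.natDegree ≤ g ∧ (∀ j, |(p.coeff j : ℝ)| ≤ ‖ξ‖ ^ A) ∧ Polynomial.aeval ξ p = 0

/-- For all choices `l_i` of the logarithms of the `ξ_i` and all number fields `K` of degree `≤ d`, every polynomial of
degree `≤ δ` over `K` which vanishes at the point with the coordinates `Ω`, `w`, `l_i` and the entries of the matrices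
`Y_j(1 / ξ_i) Ω_j` vanishes at all points with the coordinates `Ω`, `w`, `l'_i ∈ ℂ` and the entries of `X_ij Ω_j` with
`X_ij ∈ T_j(1 / ξ_i)`. -/
def Generic {r k q : ℕ} (δ d : ℕ) (e : Fin r → Eqn) (Ω : ∀ j, Matrix (Fin (e j).n) (Fin (e j).n) ℂ) (w : Fin q → ℂ)
    (ξ : Fin k → ℂ) : Prop :=
  ∀ l : Fin k → ℂ, (∀ i, Complex.exp (l i) = ξ i) →
    ∀ K : IntermediateField ℚ ℂ, FiniteDimensional ℚ K → Module.finrank ℚ K ≤ d →
    ∀ P : MvPolynomial (((Σ j : Fin r, Fin (e j).n × Fin (e j).n) ⊕ Fin q) ⊕ Coord e k) K, P.totalDegree ≤ δ →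
    MvPolynomial.aeval (Sum.elim (consts Ω w) (point l fun i j => (e j).Y (ξ i) (l i) * Ω j)) P = 0 →
    ∀ (l' : Fin k → ℂ) (X : Fin k → ∀ j, Matrix (Fin (e j).n) (Fin (e j).n) ℂ), (∀ i j, X i j ∈ (e j).T (1 / ξ i)) →
      MvPolynomial.aeval (Sum.elim (consts Ω w) (point l' fun i j => X i j * Ω j)) P = 0

theorem frob_eq (e : Eqn) (k : ℕ) : e.frob k = Pool.Agent.Y119.HY.aq e.n e.poly k := rfl

theorem J_eq (e : Eqn) : e.J = Pool.Agent.Y119.HY.cm (Pool.Agent.Y119.HY.Jm e.n e.poly) := by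
  ext i j
  rw [Pool.Agent.Y119.HY.cm_apply]
  unfold Eqn.J Pool.Agent.Y119.HY.Jm
  rw [Matrix.of_apply, Matrix.of_apply]
  split_ifs
  · rfl
  · simp

theorem B_eq (e : Eqn) (z : ℂ) : e.B z = Run7.h893.HO.Bz (Pool.Agent.Y119.HY.cm (Run7.h893.HO.J0m e.n))
    (Pool.Agent.Y119.HY.cm (Run7.h893.HO.J1m e.n e.poly)) z := by
  ext i j
  unfold Eqn.B Run7.h893.HO.Bz
  rw [Matrix.of_apply, Matrix.sub_apply, Matrix.smul_apply, Pool.Agent.Y119.HY.cm_apply, Pool.Agent.Y119.HY.cm_apply,
    smul_eq_mul]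
  congr 1
  unfold Run7.h893.HO.J0m
  rw [Matrix.of_apply]
  split_ifs
  · push_cast
    rfl
  · rw [Rat.cast_zero]

theorem Y_eq (e : Eqn) (ξ l : ℂ) : e.Y ξ l = Pool.Agent.Y119.HY.Hf (Pool.Agent.Y119.HY.Hc e.n e.poly) (1 / ξ) *
    Pool.Agent.Y119.HY.E (Pool.Agent.Y119.HY.cm (Pool.Agent.Y119.HY.Am e.n)) (-l) := by
  ext i j
  unfold Eqn.Y
  rw [Matrix.of_apply, Matrix.mul_apply]
  have hE : ∀ c : Fin e.n, Pool.Agent.Y119.HY.E (Pool.Agent.Y119.HY.cm (Pool.Agent.Y119.HY.Am e.n))
      (-l) c j = ∑ a ∈ Finset.range e.n, if (j : ℕ) = c + a then (-l) ^ a / (a.factorial : ℂ) else 0 := by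
    intro c
    unfold Pool.Agent.Y119.HY.E
    rw [Matrix.sum_apply]
    refine Finset.sum_congr rfl fun a _ => ?_
    rw [Matrix.smul_apply, ← Pool.Agent.Y119.HY.cm_pow, Pool.Agent.Y119.HY.cm_apply, Pool.Agent.Y119.HY.Am_pow, smul_eq_mul]
    split_ifs
    · push_cast
      ring
    · simp
  simp only [hE, Finset.mul_sum]
  rw [Finset.sum_comm]
  have hsub : Finset.range ((j : ℕ) + 1) ⊆ Finset.range e.n := by
    intro a ha
    rw [Finset.mem_range] at ha ⊢
    have := j.2
    omega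
  refine Finset.sum_subset_zero_on_sdiff hsub (fun a ha => ?_) fun a ha => ?_
  · rw [Finset.mem_sdiff, Finset.mem_range, Finset.mem_range] at ha
    refine Finset.sum_eq_zero fun c _ => ?_
    rw [if_neg (by omega), mul_zero]
  · rw [Finset.mem_range] at ha
    have hj := j.2
    rw [Finset.sum_eq_single (⟨(j : ℕ) - a, by omega⟩ : Fin e.n)]
    · rw [if_pos (by simp only; omega), mul_comm]
      congr 1
    · intro c _ hc
      rw [if_neg, mul_zero]
      intro h
      apply hc
      apply Fin.ext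
      simp only
      omega
    · intro h
      exact absurd (Finset.mem_univ _) h

theorem types {r : ℕ} {e : Fin r → Eqn} (he : Good e) : ∃ W, JU (fun j => (e j).n) (fun j => (e j).poly) W :=
  JU_QA (n := fun j => (e j).n) (α := fun j => (e j).α) (fun j => (he.1 j).1) (fun j => (he.1 j).2.1)
    (fun j => (he.1 j).2.2.1) (fun j => (he.1 j).2.2.2) (fun i j hij => he.2.1 i j hij) he.2.2

theorem T_eq {e : Eqn} (he : e.Admissible) (z : ℂ) : e.T z = TU e.n e.poly (Complex.log (1 - z)) z := by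
  have h1 : e.poly.coeff (e.n - 1) = ∑ j, e.α j := QA_coeff (by have := he.1; omega) e.α
  have hQ := QG_QA he.1 (nonint he.2.1)
  have hB : e.B 0 = Pool.Agent.Y119.HY.cm (Run7.h893.HO.J0m e.n) := by
    rw [B_eq]
    unfold Run7.h893.HO.Bz
    rw [zero_smul, sub_zero]
  ext X
  unfold Eqn.T TU
  rw [h1, J_eq, hB, B_eq]
  refine and_congr_right fun _ => and_congr ⟨fun h h2 => h ?_, fun h h2 => h ?_⟩ ⟨fun h h2 => h h2.sym, fun h h2 => h ?_⟩
  · exact even_of_QD h2
  · exact QD_of_even hQ h2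
  · exact QO_of_comp he.1 (nonint he.2.1) h2

theorem point_eq {r k : ℕ} {e : Fin r → Eqn} (l : Fin k → ℂ) (X : Fin k → ∀ j, Matrix (Fin (e j).n) (Fin (e j).n) ℂ) :
    point l X = pjc (n := fun j => (e j).n) l X := by
  funext v
  obtain ⟨i, _ | ⟨j, p⟩⟩ := v
  · rfl
  · rfl

theorem mem_T {e : Eqn} (he : e.Admissible) {ξ l : ℂ} (hξ : 1 < ‖ξ‖) : e.Y ξ l ∈ e.T (1 / ξ) := by
  rw [T_eq he, Y_eq]
  refine mem_TU (QG_QA he.1 (nonint he.2.1)) ?_ _
  rw [norm_div, norm_one, div_lt_one (by linarith)]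
  exact hξ

/-- Let `e_1, …, e_r` be a good list of hypergeometric equations. Then the matrices `Y_j(1 / ξ)` lie in the torsors
`T_j(1 / ξ)` for `|ξ| > 1`, for all branches, and there is `G_0` such that for all `G ≥ G_0`, all constant matrices `Ω_j` and
all `q`, `k`, `g`, `d`, `δ`, `A` there is `E` such that for all `H` and all algebraic `ξ` of degree `≤ g` and of height
`≤ |ξ|^A` with `|ξ| ≥ (H + 2)^E` and all `w ∈ ℂ^q` there are at most `trdeg ℚ(2 π i, Ω) + q + 1` exceptional numbers such that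
all `k`-tuples of distinct points `z_i = 1 / (ξ - G u_i)` with `u_i ∈ {1, …, H}` not exceptional are generic: all relations of
degree `≤ δ` over number fields of degree `≤ d` between `Ω`, `w`, the logarithms `log z_i` and the entries of the period
matrices `Y_j(z_i) Ω_j` of all the equations hold for all points of the torsors. -/
theorem result {r : ℕ} (e : Fin r → Eqn) (he : Good e) :
    (∀ ξ l : ℂ, 1 < ‖ξ‖ → Complex.exp l = ξ → ∀ j, (e j).Y ξ l ∈ (e j).T (1 / ξ)) ∧
    ∃ G₀ : ℕ, ∀ G : ℕ, G₀ ≤ G → ∀ (Ω : ∀ j, Matrix (Fin (e j).n) (Fin (e j).n) ℂ) (q k g d δ A : ℕ), ∃ E : ℕ,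
      ∀ (H : ℕ) (ξ : ℂ), Height g A ξ → ((H : ℝ) + 2) ^ E ≤ ‖ξ‖ → ∀ w : Fin q → ℂ, ∃ S : Finset ℕ,
      (S.card : Cardinal) ≤ Algebra.trdeg ℚ (IntermediateField.adjoin ℚ (insert (2 * Real.pi * Complex.I)
        (Set.range fun p : Σ j : Fin r, Fin (e j).n × Fin (e j).n => Ω p.1 p.2.1 p.2.2))) + q + 1 ∧
      ∀ u : Fin k → ℕ, Function.Injective u → (∀ i, 1 ≤ u i ∧ u i ≤ H ∧ u i ∉ S) →
        (∀ i, 1 < ‖ξ - G * u i‖) ∧ Generic δ d e Ω w fun i => ξ - G * u i := by
  classical
  obtain ⟨W, hJ⟩ := types he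
  refine ⟨fun ξ l hξ _ j => mem_T (he.1 j) hξ, ?_⟩
  obtain ⟨G₀, -, hW⟩ := win_joint (tg hJ) p_GFS p_WINA hJ
  refine ⟨G₀, fun G hG Ω q k g d δ A => ?_⟩
  obtain ⟨Ex, h1⟩ := hW G hG Ω q k g d δ A
  refine ⟨Ex, fun H ξ hht hξ w => ?_⟩
  obtain ⟨S, hS, h2⟩ := h1 H ξ hξ hht w
  refine ⟨S, hS, fun u hu hub => ?_⟩
  obtain ⟨h3, h4⟩ := h2 u hu hub
  have hcast : ∀ i, ((G * u i : ℕ) : ℂ) = G * u i := fun i => by push_cast; rfl
  simp only [hcast] at h3 h4
  refine ⟨h3, fun l hl K hKf hKd P hPd hP0 l' X hX => ?_⟩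
  have h5 := h4 l hl K hKf hKd P hPd (by
    rw [point_eq] at hP0
    simp only [Y_eq] at hP0
    exact hP0) l' X (fun i j => by
    rw [← T_eq (he.1 j)]
    exact hX i j)
  rw [point_eq]
  exact h5

end Pool.Agent.Results.MP_cbf1af_ag.HypergeometricWindows
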