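import Pool.Agent.Run7.h2.EXT.E6

set_option autoImplicit false

/-!
# Products of complex balls of odd dimension and other unitary types

Let `Y` be a smooth projective variety over a number field whose motive `M = h^j(Y)` is in the tensor
category generated by `h^1(C)` and the Tate motives, for an abelian variety `C` over `ℚ̄` (or let `M` be
any motive in this category). Let `P` be the matrix of the periods of `M`. It is a point of a torsor of
the Mumford-Tate group `MT(M)` which is defined over `ℚ̄`, and Q1 says that it is a generic point over
`ℚ̄`. So Q1 implies: every algebraic group `G ⊆ GL(M_B)` over `ℚ` with a torsor `G T⁻¹`
(`torsor G T`, where the matrix `T` has algebraic entries) which contains `P` contains `MT(M)`. (If not,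
then `P` is in a closed subset of smaller dimension of the torsor of `MT(M)`, defined over `ℚ̄`.) In other
words the de Rham-Betti classes in all tensor constructions of `M` are Hodge classes. We prove this
for many motives of unitary type.

**The places** (`Places`). Let `z i`, `i < k`, be central endomorphisms of `C`, skew-symmetric for the
polarization, such that all elements of the centre of `End(C) ⊗ ℚ` are polynomials in `z i` on the
image of `z i`; they may be equal or different. For example let `C` be isogenous to `∏ C_j ^ (m_j)`,
with simple and pairwise not isogenous `C_j`, let `z i` be a generator, with `z̄ = - z`, of the CM
field `F_j`, the centre of `End(C_j) ⊗ ℚ`, for some `j`. Let `B_j` be the commutant of `End(C_j)`. Let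
`a i` be real numbers such that both `i a` and `- i a` are eigenvalues of `z i` on the tangent space
of `C`, `a = a i`: a place at which the unitary group of `B_j` is not compact. We assume that each place
is of one of the following types:

* (1) the signature at the place is `(1, n)`, and `i a` and `- i a` are separated (`Separates`: if a
  subalgebra `B'` generates `B_j` with `F_j`, then `F_j ∩ B'` is not fixed by the complex conjugation; this is
  satisfied if the order of `B_j` in the Brauer group is larger than two);
* (2) **the signature at the place is `(1, n)`, `n = 2 k - 1 ≥ 3`, and the middle exterior power occurs**
  (`HasMiddleExteriorPower`): the exterior power of degree `k` of the simple complex `𝔤`-module `W` of the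
  place (of the dimension `2 k`), twisted by a character of `𝔤`, is a submodule of `H_1(C, ℝ)`; nothing is
  assumed about `B_j`. (We use the alternating forms of degree `k` on `W`, that is, the exterior power of the
  dual of `W`; it is isomorphic to the exterior power of degree `k` of `W` twisted with the determinant.)
* (3) `ℚ[z]` is a field, and *some* place of `z` is of type (1) or (2); the signature at the place `a i`
  is arbitrary;
* (4) `B_j` is a division algebra of a prime degree; the signature at the place `a i` is arbitrary.

Different places have different signatures (`r : s ≠ r' : s'` and `r : s ≠ s' : r'`,
`DifferentSignatures`), or they are separated (`SeparatesTwo`).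

**The abelian varieties with the middle exterior power.** Let `A` be an abelian variety over `ℚ̄` whose
endomorphism algebra is a CM field `F`, of degree `2e` and of dimension `2 k e`, with the signature
`(1, 2k - 1)` at one place and `(0, 2k)` at the other places: here `B = M_{2k}(F)` is split, and
`i a`, `- i a` are never separated. By the theorem of Deligne and Satake the exterior power
`⋀^k_F H_1(A, ℚ)`, twisted by a Hodge structure of CM type and of rank one over `F`, is the first homology of
an abelian variety `A_k` over `ℚ̄`. The variety `C = A × A_k` has places of type (2). Examples are (for
general `f`) the Jacobians of the curves `y ^ 3 = f(x)`, `f` of degree six, and the primitive parts of the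
Jacobians of `y ^ 4 = f(x)`, `f` of degree eight, and `y ^ 6 = f(x)`, `f` of degree twelve (Deligne and
Mostow), and the abelian varieties given by K3 surfaces with complex multiplication.

**Theorem** (`result`). Let `M` be a motive in the category generated by `h^1(C)` such that the part of the
Hodge group of `C` which acts trivially on the eigenspaces for `± i a i` acts trivially on the
Mumford-Tate domain of `M` (`IsDomainOf`). Then `G` contains the derived group of the Hodge group of `M`;
and `G` contains `MT(M)` if the centre acts trivially on `M`, or if the centre of the Lie algebra of the
Hodge group of `C` is rigid.

**Relation to the earlier results.** The starting result `MP_77d3f5_ag.BallMotives` treats motives whose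
domain is *one* ball of odd dimension, with a middle exterior part of `H_1(A, ℂ)`. Here the domain can be
a product of several balls of odd dimension, of balls of arbitrary dimension (if they are separated) and
of other domains of unitary type. For example let `F_1`, `F_2`, ... be different imaginary quadratic fields, let
`A_j` be an abelian variety with `End(A_j) ⊗ ℚ = F_j` and the signature `(1, n_j)`, with different odd numbers
`n_j ≥ 3` (for instance the curves `y ^ 3 = f(x)`, `f` of degree six, and the primitive part of
`y ^ 4 = g(x)`, `g` of degree eight), and let `D_j` be abelian varieties such that the commutant of `End(D_j)` is a
division algebra of prime degree over an imaginary quadratic field `F'_j`, with signatures different from each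
other and from `(1, n_j)`. Then the theorem applies to the product of all these abelian varieties and to
all motives in the category generated by it; the Mumford-Tate group of the product is described by its
factors, and all period groups contain it if the fields are different. The case of several ball places of
one field `F` with `B` of order two in the Brauer group is new, too: let `B = B_0 ⊗ F` with an algebra `B_0` of
order two over the maximal real subfield `F_0` of `F`, which does not descend to smaller fields (for
example `F_0` real quadratic, and `B` not isomorphic to an algebra obtained from a subfield of `F` different
from `F_0` and `F`); then the different places of `F_0` are separated, but `i a` and `- i a` are not. The earlier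
results `ProductsOfUnitaryTypes`, `OneBallPlace`, `DifferentSignatures` need the separation of `i a` and `- i a`
at a ball place.

The proof of the new case: let `𝔮` be the subalgebra of the Lie algebra `𝔤` which belongs to the group `G`. By
the theorem on real Lie algebras of signature `(1, n)` (`Pool.Agent.N208.BT.local_main`) the algebra
`[𝔮, 𝔮]` contains the long roots at the place, or it commutes with an antilinear bijection. In the second
case a comparison of the hermitian form and of its conjugate shows that it respects a symmetric bilinear
form (`Run7.h2.EXT.real_basis`). So it commutes with the star operator of the middle exterior power
(`Run7.h2.EXT.star_comm`); the same is true for the associative algebra generated by `𝔮`, which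
contains `𝔤` by the theorem of Schneider and Lang. As the exterior power is a simple complex
representation of `𝔤`, the star operator is a scalar, but this is false (`Run7.h2.EXT.star_not`).

Nothing is assumed about periods: `AbVar` is the description of an abelian variety over `ℚ̄` by theta
functions (see `Pool/Agent/Y102/AVDefs.lean`), and the transcendence theorems which are used are proved
in this repository. The definitions are in `Pool/Agent/Run7/h2/OB/PUDefs.lean` and
`Pool/Agent/Run7/h2/EXT/Defs.lean`.
-/

namespace Pool.Agent.Results.MP_cbf1af_ag.OddBallsAndUnitaryPlaces

open Module Matrix Pool.Agent.Y102 Run7.h2.OB.PU Run7.h2.EXT

/-- **Theorem.** Let `z i`, `a i` be unitary places of the abelian variety `C`, such that different places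
have different signatures or are separated. Let `M` be a motive in the tensor category generated by
`h^1(C)` and the Tate motives, with the matrix `P` of periods and the complex structure `N`, such that
the part of the Hodge group of `C` which acts trivially on the eigenspaces for `± i a i` acts trivially on
the Mumford-Tate domain of `M`. Let `G` be an algebraic group over `ℚ` with a torsor over `ℚ̄` which
contains `P`. Then:

1. `G` contains `exp (t Z)` for all elements `Z` of the derived algebra of the Lie algebra of the Hodge
   group of `M` and all complex numbers `t`.
2. If the centre acts trivially on `M`, or if the centre of the Lie algebra of the Hodge group of `C` is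
   rigid, then `G` contains the Mumford-Tate group of `M`. -/
theorem result {g s n k : ℕ} (C : AbVar g) (z : Fin k → Module.End ℚ C.H1) (a : Fin k → ℝ)
    (hC : Places C z a) (r : Fin s → ℕ) (w : Fin s → ℤ)
    (B : Fin n → Tensors C r) (P : Matrix (Fin n) (Fin n) ℂ) (hM : IsMotive w B P)
    (N : Matrix (Fin n) (Fin n) ℝ) (hN : IsComplexStructure B N)
    (hD : IsDomainOf z a B N)
    (G : Subgroup (GL (Fin n) ℂ)) (hG : IsAlgebraicSubgroup G) (T : Matrix (Fin n) (Fin n) ℂ)
    (hT : ∀ i j, IsAlgebraic ℚ (T i j)) (hP : P ∈ torsor G T) :
    (∀ Z ∈ derived (hodgeLie N), ∀ t : ℂ, ∃ x ∈ G,
      (x : Matrix (Fin n) (Fin n) ℂ) = NormedSpace.exp (t • Z.map fun q => (q : ℂ))) ∧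
    (CentreActsTrivially B ∨ HasRigidCentre C → mumfordTate w B ≤ G) :=
  group_main C z a hC r w B P hM N hN hD G hG T hT hP

end Pool.Agent.Results.MP_cbf1af_ag.OddBallsAndUnitaryPlaces
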