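import Pool.Agent.Run7.h358.A1.Tor
import Pool.Agent.Run7.h358.A1.Pt

set_option autoImplicit false

/-!
# The Zariski closures of period matrices, for Hodge groups of type `A_1`

Let `Y` be a smooth projective variety over `ℚ̄`, `j` a natural number, and `V = H^j(Y(ℂ), ℚ)`. Let `P` be the
period matrix of `H^j(Y)`, and let `Z ⊆ GL_n(ℂ)` be its Zariski closure over `ℚ̄`: the set of the matrices
`F` which satisfy all the polynomial equations with coefficients in `ℚ̄` which are satisfied by `P`
(`closure P`). The dimension of `Z` is the transcendence degree of the field `F_j(Y)` of periods, and `Z` is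
contained in a torsor of the motivic Galois group of `H^j(Y)`. If this is the Mumford-Tate group `MT(V)`
(as for all motives of abelian type, by theorems of Deligne and André) then Q1 says that `Z` is the whole
torsor: for a matrix `T` with algebraic entries, `Z` is the set of the matrices `x T⁻¹` with
`x ∈ MT(V)(ℂ)`.

**Theorem.** Let `A` be an abelian variety over `ℚ̄` whose Hodge group is of type `A_1` (`TypeA1`, see below;
the condition on pairs of factors is satisfied after the replacement of `A` by a larger abelian variety), and
let `M` be a motive in the tensor category generated by `h^1(A)` and the Tate motives, for example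
`M = h^j(Y)`. Let `P` be the period matrix of `M`, and let `G` be an algebraic subgroup of `GL(M_B)`,
defined over `ℚ`, such that `Z = closure P` is contained in a coset of `G`: `F F'⁻¹ ∈ G(ℂ)` for all `F`, `F'`
in `Z`.

1. `G` contains the derived group of `MT(M)`: it contains `exp (t N)` for all complex numbers `t` and all
   `N` which are the action on `M` of an element of the derived algebra of the Lie algebra of the Hodge group
   of `A`.
2. If the condition `ControlledCentre` holds (for example if `A` has no factors of type IV, or if the
   centres of their endomorphism algebras are abelian over `ℚ`, see below) then `G` contains `MT(M)`.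

So the algebraic group over `ℚ` which is generated by the quotients `F F'⁻¹` of the points of `Z` contains
`MT(M)` (and it is equal to it, as `Z` is contained in a torsor of `MT(M)`): the closure `Z` of the period
matrix is not contained in a coset `G x`, `x ∈ GL_n(ℂ)`, of an algebraic group `G` over `ℚ` which does not
contain `MT(M)`, and *if `Z` is a coset of any algebraic group over `ℚ`, then Q1 is true for `M`*. (For a coset
over `ℂ`, there is no condition on `x`.)

**The varieties `Y`.** The theorem can be applied to `H^j(Y)` for all `j` if `Y` is a power of `A`, for instance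
if `Y` is

* a product of elliptic curves and of simple abelian surfaces with an endomorphism algebra different from
  `ℚ` (part 2, if those with complex multiplication by a quartic field which is not abelian over `ℚ` are
  excluded),
* a power `B ^ m`, `m ≥ 2`, of an abelian fourfold `B` of Mumford, where `H^4(Y)` contains Hodge classes which are
  not combinations of products of classes of divisors,
* or, more generally, a product of any abelian varieties whose Hodge groups are of type `A_1`, where the
  centres of the endomorphism algebras of the simple factors of type IV are abelian over `ℚ`;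

and to `H^2(Y)` if `Y` is a K3 surface whose transcendental lattice has rank three or four over the field of
its endomorphisms, and this field is totally real (for example if the Picard number of `Y` is nineteen), as
this motive is in the tensor category generated by the Kuga-Satake abelian variety (André); and to all
varieties dominated by products of such varieties.

The theorem is about all polynomial relations with algebraic coefficients between the periods, of all
degrees, at all points `Y` of the moduli spaces; the results on families (known: see the page) are on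
relations of bounded degree and on most members of a family. In the literature I know the theorems of
Kreutz, Shen and Vial and of Ji on de Rham-Betti groups: products of elliptic curves, some abelian surfaces,
Hodge structures of K3 type with small transcendental part, some simple abelian fourfolds of type IV.

Nothing is assumed about periods: `AbVar` is the description of an abelian variety over `ℚ̄` by theta
functions (see `Pool/Agent/Y102/AVDefs.lean`, where it is explained why every abelian variety has it),
and the transcendence theorems which are used, the theorem of Schneider and Lang and the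
transcendence of `π`, are proved in this repository.

## Type `A_1`

Let `𝔤` be the Lie algebra of the endomorphisms of `H_1(A, ℚ)` which annihilate all classes that are Hodge
classes and de Rham-Betti classes (`InLie`); by the theorem of Deligne it is the Lie algebra of the Hodge
group of `A`. The Hodge group is *of type `A_1`* if the derived algebra of `𝔤 ⊗ ℂ` is a sum of Lie algebras
`sl(2)`. By the classification of the symplectic representations of Hodge groups (Deligne, Satake) the
irreducible constituents of `H_1(A, ℂ)` are then tensor products `V_S ⊗ χ` of the standard representations of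
the factors `i ∈ S` and of a character of the centre. In `TypeA1` the factors are given by
homomorphisms `φ i` (without unit element) from the algebra of the matrices of size two to the
endomorphisms of `H_1(A, ℂ)`, such that `𝔤 ⊗ ℂ` is the sum of its centre and of the `φ i (sl(2))`. Let
`i ≠ k` be two factors. We assume that one of the following is true:

* (`CompactAt`) for some automorphism `σ` of `ℂ` one of the conjugates `σ(i)` and `σ(k)` is a compact
  factor (it commutes with the complex structure of `H_1(A, ℝ)`), and the other one is not compact;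
* (`InSeparatedPosition`) there is a constituent on which `i` and `k` both act nontrivially, or there are
  constituents `V ⊗ U` and `V' ⊗ U`, where `V` and `V'` are the standard representations of `i` and `k`, and
  `U` is a representation of the other factors and of the centre.

**Every abelian variety `A` over `ℚ̄` whose Hodge group is of type `A_1` is a factor of an abelian variety
over `ℚ̄` with this property.** Suppose that the first condition is false for `i` and `k`, and that `k` acts
trivially on a constituent `V ⊗ U`, where `V` is the standard representation of `i`. Then for all `σ` the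
conjugate by `σ` of `V' ⊗ U` has the same Hodge types as that of `V ⊗ U`, that is `(-1, 0)` and `(0, -1)`, as
`σ(i)` and `σ(k)` are both compact or both noncompact. So there is an abelian variety `A'` whose constituents
are these representations, and it is defined over `ℚ̄`, as it has the same adjoint Hodge group as `A` (the
maps between the Shimura varieties are defined over `ℚ̄`). The factors `i` and `k` are in separated position
for `A × A'`, whose Hodge group has the same adjoint group; and its centre is zero if the centre of the Hodge
group of `A` is finite. The motives in the tensor category generated by `h^1(A)` are among those in the tensor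
category generated by `h^1(A × A')`.

Examples of abelian varieties whose Hodge group is of type `A_1`: all products of elliptic curves; the
abelian surfaces with real or quaternionic multiplication; the simple abelian varieties of the types I and II
of Albert whose commutant of `End(A)` has dimension four over its centre; the abelian varieties of Mumford
(`H_1(A, ℂ) = ℂ² ⊗ ℂ² ⊗ ℂ²`, `End(A) = ℤ`, with Hodge classes on `A ^ 2` which are not combinations of products of
classes of divisors) and their generalizations; the Kuga-Satake varieties of Hodge structures of K3 type of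
rank three and four over the field of their endomorphisms, if it is totally real; the simple abelian
fourfolds of type IV(2,1), where `End(A) ⊗ ℚ` is a CM field of degree four; in general,
the abelian varieties which belong to the quaternionic Shimura varieties of all totally real fields `F₀`,
for instance to the Shimura curves, for all symplectic embeddings (the *modèles étranges* of Deligne), where some
factors are compact; and all products of such abelian varieties and abelian varieties with complex
multiplication.

## The centre

The condition `ControlledCentre`: `A` is a factor of an abelian variety `C` such that the centre of the Lie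
algebra of the Hodge group of `C` is rigid, and all elements of the centre of `𝔤` are restrictions of
elements of it. *Rigid* means: for every element `X` of the centre which generates it relative to the derived
algebra (`Generates`), all relations `∑ x i = 0` between eigenvalues of `X` for eigenvectors `v i` imply the
relations `∑ y i = 0` for the eigenvalues of all elements `Y` of the centre, for the same eigenvectors.
If `A` has no factor of type IV then the centre is zero, and the condition is true with `C = A`.

**The condition is true for all `A` such that the centres of the endomorphism algebras of the simple factors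
of type IV are abelian over `ℚ`.** Let `L` be a CM field which contains these centres and is Galois over `ℚ`
with an abelian group `Γ`, and let `C` be the product of `A` and of the abelian varieties `A_Φ` with complex
multiplication by `L` and of the type `Φ`, for all CM types `Φ ⊆ Γ`. The centre of the Lie algebra of the
Hodge group of `C` consists of the elements `x ∈ L` with `x̄ = - x`: it is the odd part of the Lie algebra of
the Serre torus of `L`, as this torus is generated by the conjugates of its cocharacter, and is mapped onto
the centre for `A`. The eigenvalues of `x` on `H_1(A_Φ, ℂ)` are the conjugates of `∑_{t ∈ Φ} t⁻¹(x)`, and all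
the eigenvalues on `H_1(C, ℂ)` are of the form `∑_t c_t t⁻¹(x)` with odd rational functions `c` on `Γ`. A
nonzero odd function `f` with the values `0`, `1`, `-1` is the difference of two CM types `Φ`, `Φ'`, and so
`∑_t f_t t⁻¹(x) ≠ 0` if `x` is generating: otherwise a homomorphism between the homologies of `A_Φ` and `A_Φ'`
commutes with `x`, and not with the centre. The odd functions `c` with `∑_t c_t t⁻¹(x) = 0` are an ideal of
`ℚ[Γ]`. If there is a function `c ≠ 0` in it, let `χ` be a character of `Γ` with `∑_t c_t χ(t) ≠ 0`, let `N` be the
kernel of `χ`, and `τ_q ∈ Γ` an element whose image in the cyclic group `Γ / N` is of order `q`, for all prime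
numbers `q` which divide the order of this group. The element `f = ∏_q (1 - τ_q) ∑_{n ∈ N} n` has the
coefficients `0`, `1`, `-1`, and it is in the ideal, because `ψ(f) ≠ 0` for the conjugates `ψ` of `χ` only.
This is a contradiction, so the only relations between the eigenvalues of `x` are those which hold for
all elements of the centre. (This is the argument of the starting file `MP_470b79_ag.AbelianCMTensors` on
complex multiplication by abelian fields.)

Let `A` be a simple abelian fourfold such that `End(A) ⊗ ℚ` is a CM field `F` of degree four. Then `A` is of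
type `A_1` with one compact and one noncompact factor (Shimura), and the centre consists of the elements
`x ∈ F` with `x̄ = - x`. If `F` is not abelian over `ℚ` then it has no imaginary quadratic subfield, and so
different conjugates `a`, `b ≠ - a` of such an element `x ≠ 0` are linearly independent over `ℚ`, and the
centre is rigid. So `ControlledCentre` holds for all simple abelian fourfolds with `End(A) ⊗ ℚ` a quartic CM
field.

## Motives

As `h^1(A)` is dual to `h^1(A)(1)`, the motive `M` is a direct factor of a sum of motives
`h^1(A) ^ {⊗ r i} (w i)`. Its Betti realization is a space of families of multilinear forms with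
rational values, in `r i` variables in `H_1(A, ℚ)`, with a basis `B`. It is the image of a motivated
projector, and the realizations of motivated classes are Hodge classes and de Rham-Betti classes; so
it is stable under the Lie algebra `𝔤` and under the weights. The de Rham realization has a basis which
consists of combinations of products of elements of `H^1_dR(A / ℚ̄)` with algebraic coefficients. The
matrix `P` of the periods expresses it in terms of the basis `(2 π i) ^ (w i) B` of the Betti realization
(`IsMotive`). The image of `𝔤` in the endomorphisms of `M` is the Lie algebra of the Hodge group of `M`.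

## Proof

By the Nullstellensatz the closure `Z` contains a matrix `F` with algebraic entries (`A1.exists_base`,
`U2.exists_point`). So `P F⁻¹` is in `G`, and `P` is a point of a torsor of `G` defined over `ℚ̄`. The theorem
on such groups (`main`) is my theorem `MP_f11a48_ag.TypeA1Motives`, with the same proof: the Lie algebra
`𝔮` of the elements of the Lie algebra `𝔤` of the Hodge group whose action on `M` is in `Lie(G)`, up to
weights, acts semisimply on `H_1(A, ℚ)`, with the same commutant as `𝔤` (Schneider, Lang), and it is
closed under replicas. All such subalgebras contain `[𝔤, 𝔤]` for type `A_1`: see there.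
-/

open Module Matrix Pool.Agent.Y102 Pool.Agent.W516.DR Pool.Agent.H204R3.GP

noncomputable section

namespace Pool.Agent.Results.MP_cbf1af_ag.TypeA1Closures

variable {g : ℕ} (A : AbVar g)

/-! ### The centre of the Lie algebra of the Hodge group -/

/-- The multilinear forms in `2m` variables in the rational homology. -/
abbrev Form (m : ℕ) : Type := MultilinearMap ℚ (fun _ : Fin m × Fin 2 => A.H1) ℚ

/-- `φ` is a de Rham-Betti class in `H^1(A) ^ {⊗ 2m} (m)`. -/
def IsDRB {m : ℕ} (φ : Form A m) : Prop :=
  IsDeRhamBettiForm QBar A.dR (2 * Real.pi * Complex.I) m φ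

/-- `φ` is a Hodge class in `H^1(A) ^ {⊗ 2m} (m)`. -/
def IsHodge {m : ℕ} (φ : Form A m) : Prop := IsHodgeTensor (A.per : A.H1 →+ (Fin g → ℂ)) φ

/-- The endomorphism `X` annihilates the form `φ` (as a derivation). -/
def Annihilates {m : ℕ} (X : Module.End ℚ A.H1) (φ : Form A m) : Prop :=
  ∀ v, ∑ k, φ (Function.update v k (X (v k))) = 0

/-- `X` is in the Lie algebra `𝔤`: it annihilates all classes that are Hodge classes and
de Rham-Betti classes. -/
def InLie (X : Module.End ℚ A.H1) : Prop :=
  ∀ (m : ℕ) (φ : Form A m), IsHodge A φ → IsDRB A φ → Annihilates A X φ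

/-- `X` is an element of the centre of `𝔤`. -/
def InCentre (X : Module.End ℚ A.H1) : Prop := InLie A X ∧ ∀ Y, InLie A Y → Y * X = X * Y

/-- The algebra of the endomorphisms of `H_1(A, ℂ)`, as matrices for the basis of the lattice. -/
def toC (X : Module.End ℚ A.H1) : Matrix (Fin (2 * g)) (Fin (2 * g)) ℂ :=
  Matrix.of fun i j => (X (Pi.single j 1) i : ℂ)

/-- The endomorphisms which commute with `X` and with the derived algebra of `𝔤` commute with the
centre of `𝔤`. -/
def Generates (X : Module.End ℚ A.H1) : Prop :=
  ∀ T : Module.End ℚ A.H1,
    (∀ Y, InLie A Y → ∀ Z, InLie A Z → T * (Y * Z - Z * Y) = (Y * Z - Z * Y) * T) →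
    T * X = X * T → ∀ Z, InCentre A Z → T * Z = Z * T

/-- All relations `∑ i, x i = 0` between eigenvalues of `X` imply the relation `∑ i, y i = 0` between
the eigenvalues of `Y` for the same eigenvectors. -/
def RelationsOf (X Y : Module.End ℚ A.H1) : Prop :=
  ∀ (r : ℕ) (v : Fin r → Fin (2 * g) → ℂ) (x y : Fin r → ℂ),
    (∀ i, v i ≠ 0 ∧ Matrix.mulVec (toC A X) (v i) = x i • v i ∧
      Matrix.mulVec (toC A Y) (v i) = y i • v i) → ∑ i, x i = 0 → ∑ i, y i = 0

/-- The centre of `𝔤` is rigid: the relations between the eigenvalues of a generating element of the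
centre hold for all elements of the centre. -/
def RigidCentre : Prop :=
  ∀ X, InCentre A X → Generates A X → ∀ Y, InCentre A Y → RelationsOf A X Y

/-! ### Type `A_1` -/

/-- The complex Lie algebra `𝔤 ⊗ ℂ`, acting on `H_1(A, ℂ)`. -/
def lieC : Submodule ℂ (Matrix (Fin (2 * g)) (Fin (2 * g)) ℂ) :=
  Submodule.span ℂ {Y | ∃ X, InLie A X ∧ Y = toC A X}

/-- `z` commutes with `𝔤 ⊗ ℂ`. -/
def CommutesWithLie (z : Matrix (Fin (2 * g)) (Fin (2 * g)) ℂ) : Prop := ∀ Y ∈ lieC A, z * Y = Y * z

/-- The complex structure: the matrix of the multiplication by `i` on `H_1(A, ℝ) = ℂ ^ g`, in the basis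
of the lattice. -/
def complexStructure : Matrix (Fin (2 * g)) (Fin (2 * g)) ℂ :=
  Matrix.of fun i j => ((A.lam.repr (Complex.I • A.lam j) i : ℝ) : ℂ)

/-- The conjugate by the automorphism `σ` of `ℂ` of the factor `ψ` is compact: it commutes with the
complex structure. -/
def CompactAt (σ : ℂ ≃+* ℂ)
    (ψ : Matrix (Fin 2) (Fin 2) ℂ →ₗ[ℂ] Matrix (Fin (2 * g)) (Fin (2 * g)) ℂ) : Prop :=
  ∀ a, complexStructure A * (ψ a).map σ = (ψ a).map σ * complexStructure A

/-- The factors `i` and `k` act nontrivially on a common constituent of `H_1(A, ℂ)`, or there are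
constituents `V ⊗ U` and `V' ⊗ U`, where `V` and `V'` are the standard representations of the factors `i`
and `k`, and `U` is a representation of the other factors and of the centre. -/
def InSeparatedPosition {n : ℕ}
    (φ : Fin n → Matrix (Fin 2) (Fin 2) ℂ →ₗ[ℂ] Matrix (Fin (2 * g)) (Fin (2 * g)) ℂ)
    (i k : Fin n) : Prop :=
  φ i 1 * φ k 1 ≠ 0 ∨ ∃ N : Matrix (Fin (2 * g)) (Fin (2 * g)) ℂ,
    N ≠ 0 ∧ φ i 1 * N = N ∧ N * φ k 1 = N ∧
      (∀ l, l ≠ i → l ≠ k → ∀ a, N * φ l a = φ l a * N) ∧
      ∀ z ∈ lieC A, CommutesWithLie A z → N * z = z * N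

/-- **Type `A_1`.** The Lie algebra `𝔤 ⊗ ℂ` is the sum of its centre and of `n` Lie algebras `sl(2)`,
which act by tensor products of standard representations. For two factors some automorphism of `ℂ` maps one
of them to a compact factor and the other one to a noncompact factor, or they are in separated
position. -/
def TypeA1 : Prop :=
  ∃ (n : ℕ) (φ : Fin n → Matrix (Fin 2) (Fin 2) ℂ →ₗ[ℂ] Matrix (Fin (2 * g)) (Fin (2 * g)) ℂ),
    (∀ i a b, φ i (a * b) = φ i a * φ i b) ∧
    (∀ i k, i ≠ k → ∀ a b, φ i a * φ k b = φ k b * φ i a) ∧
    (∀ i, φ i 1 ≠ 0) ∧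
    (∀ i x, x.trace = 0 → φ i x ∈ lieC A) ∧
    (∀ X ∈ lieC A, ∃ x : Fin n → Matrix (Fin 2) (Fin 2) ℂ, (∀ i, (x i).trace = 0) ∧
      CommutesWithLie A (X - ∑ i, φ i (x i))) ∧
    ∀ i k, i ≠ k → InSeparatedPosition A φ i k ∨
      ∃ σ : ℂ ≃+* ℂ, ¬ (CompactAt A σ (φ i) ↔ CompactAt A σ (φ k))

/-- `f` is a homomorphism (up to isogeny) from `A` to `C`: it is given by a linear map of the tangent
spaces, and the pull backs of the algebraic differential forms are algebraic. -/
def IsHomomorphism {g' : ℕ} (C : AbVar g') (f : A.H1 →ₗ[ℚ] C.H1) : Prop :=
  (∃ F : (Fin g → ℂ) →ₗ[ℂ] (Fin g' → ℂ), ∀ w, F (A.per w) = C.per (f w)) ∧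
    ∃ e : Fin g' ⊕ Fin g' → Fin g ⊕ Fin g → QBar,
      ∀ i w, C.dR i (f w) = ∑ j, algebraMap QBar ℂ (e i j) * A.dR j w

/-- `A` is a direct factor of `C`, up to isogeny, with the inclusion `f` and the projection `p`. -/
structure IsFactor {g' : ℕ} (C : AbVar g') (f : A.H1 →ₗ[ℚ] C.H1) (p : C.H1 →ₗ[ℚ] A.H1) :
    Prop where
  inclusion : IsHomomorphism A C f
  projection : IsHomomorphism C A p
  split : ∀ w, p (f w) = w

/-- `A` is a factor of an abelian variety `C` such that the centre of the Lie algebra of the Hodge
group of `C` is rigid and acts on `A` through all elements of the centre of `𝔤`. -/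
def ControlledCentre : Prop :=
  ∃ (g' : ℕ) (C : AbVar g') (f : A.H1 →ₗ[ℚ] C.H1) (p : C.H1 →ₗ[ℚ] A.H1),
    IsFactor A C f p ∧ RigidCentre C ∧
    ∀ Y, InCentre A Y → ∃ X, InCentre C X ∧ ∀ v, p (X (f v)) = Y v

/-! ### Motives -/

variable {s n : ℕ} (r : Fin s → ℕ) (w : Fin s → ℤ)

/-- The Betti realization of the sum of the motives `h^1(A) ^ {⊗ r i} (w i)`: families of multilinear
forms in `r i` variables in the rational homology. -/
abbrev Tensors : Type := ∀ i : Fin s, MultilinearMap ℚ (fun _ : Fin (r i) => A.H1) ℚ

variable {A r}

/-- `M` is the matrix of the action of the endomorphism `X` of the rational homology of `A` (as a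
derivation) on the space of tensors with the basis `B`. -/
def IsLieMatrix (B : Fin n → Tensors A r) (X : Module.End ℚ A.H1)
    (M : Matrix (Fin n) (Fin n) ℚ) : Prop :=
  ∀ a i v, ∑ k, B a i (Function.update v k (X (v k))) = ∑ b, M b a * B b i v

/-- The subspace with the basis `B` is the Betti realization of a direct factor `M` of the sum of the
motives `h^1(A) ^ {⊗ r i} (w i)`, and `P` is the matrix of the periods of `M` for the basis `B` and for
some basis of the de Rham realization of `M` over `ℚ̄`. -/
structure IsMotive (B : Fin n → Tensors A r) (P : Matrix (Fin n) (Fin n) ℂ) : Prop where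
  /-- `B` is a basis of a subspace -/
  basis : LinearIndependent ℚ B
  /-- the subspace is stable under `𝔤` -/
  lie : ∀ X, InLie A X → ∃ M : Matrix (Fin n) (Fin n) ℚ, IsLieMatrix B X M
  /-- the subspace is stable under the weights -/
  weight : ∃ M : Matrix (Fin n) (Fin n) ℚ, ∀ a i v,
    ((r i : ℚ) - 2 * w i) * B a i v = ∑ b, M b a * B b i v
  /-- the de Rham realization has a basis of elements with algebraic coefficients in terms of the
  tensor products of the elements of the basis of `H^1_dR(A / ℚ̄)` -/
  deRham : ∃ c : Fin n → ∀ i : Fin s, (Fin (r i) → Fin g ⊕ Fin g) → ℂ,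
    (∀ a i J, IsAlgebraic ℚ (c a i J)) ∧ ∀ a i (v : Fin (r i) → A.H1),
      ∑ J, c a i J * ∏ k, A.dR (J k) (v k) =
        (2 * Real.pi * Complex.I) ^ (w i) * ∑ b, P b a * (B b i v : ℂ)
  /-- the matrix of the periods is invertible -/
  det : P.det ≠ 0

variable (A) in
/-- The derived algebra `[𝔤, 𝔤]`. -/
def derivedLie : Submodule ℚ (Module.End ℚ A.H1) :=
  Submodule.span ℚ {Z | ∃ X, InLie A X ∧ ∃ Y, InLie A Y ∧ Z = X * Y - Y * X}

/-! ### Algebraic groups, torsors and the Mumford-Tate group -/

/-- A subgroup of `GL_R(ℂ)` defined by polynomials with rational coefficients. -/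
def IsAlgebraicSubgroup {R : Type} [Fintype R] [DecidableEq R] (G : Subgroup (GL R ℂ)) : Prop :=
  ∃ I : Set (MvPolynomial (R × R) ℚ), ∀ x : GL R ℂ, x ∈ G ↔
    ∀ p ∈ I, MvPolynomial.aeval (fun b : R × R => (x : Matrix R R ℂ) b.1 b.2) p = 0

/-- The torsor `G · T⁻¹` of `G`: the matrices `F` such that `F T` is an element of `G`. It is
defined over `ℚ̄` if `T` is a matrix with algebraic entries. -/
def torsor (G : Subgroup (GL (Fin n) ℂ)) (T : Matrix (Fin n) (Fin n) ℂ) :
    Set (Matrix (Fin n) (Fin n) ℂ) :=
  {F | ∃ x ∈ G, (x : Matrix (Fin n) (Fin n) ℂ) = F * T}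

variable (A) in
/-- The Hodge structure of `H^1(A)`: the complex number `z` acts on `H_1(A, ℝ) = ℂ ^ g` by
multiplication, and on `H^1(A, ℝ)` by the transposed map, here in the basis of `H^1(A, ℚ)` which is
dual to the basis of the lattice. -/
def hodge (z : ℂ) : Matrix (Fin (2 * g)) (Fin (2 * g)) ℂ :=
  Matrix.of fun i j => ((A.lam.repr (z • A.lam i) j : ℝ) : ℂ)

/-- `R` is the matrix of the action of the complex number `z` on `M`, in the Hodge structure given by
those of `H^1(A)` and of the Tate motives (`z` acts on `ℚ(1)` by `(z z̄)⁻¹`). -/
def IsHodgeMatrix (B : Fin n → Tensors A r) (z : ℂ) (R : Matrix (Fin n) (Fin n) ℂ) : Prop :=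
  ∀ a i (j : Fin (r i) → Fin (2 * g)),
    ∑ j' : Fin (r i) → Fin (2 * g), (∏ k, hodge A z (j k) (j' k)) *
        (B a i (fun k => Pi.single (j' k) 1) : ℂ) =
      (z * (starRingEnd ℂ) z) ^ (w i) * ∑ b, R b a * (B b i (fun k => Pi.single (j k) 1) : ℂ)

/-- The Mumford-Tate group of `M`: the smallest algebraic group over `ℚ` which contains the image of
the Deligne torus. -/
def mumfordTate (B : Fin n → Tensors A r) : Subgroup (GL (Fin n) ℂ) :=
  sInf {G | IsAlgebraicSubgroup G ∧ ∀ z : ℂ, z ≠ 0 → ∃ x ∈ G,
    IsHodgeMatrix w B z (x : Matrix (Fin n) (Fin n) ℂ)}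

/-! ### The Zariski closure -/

/-- The matrix `F` is a zero of the polynomial `p` with algebraic coefficients in the entries of a
matrix. -/
def IsZero (p : MvPolynomial (Fin n × Fin n) QBar) (F : Matrix (Fin n) (Fin n) ℂ) : Prop :=
  MvPolynomial.aeval (fun b : Fin n × Fin n => F b.1 b.2) p = 0

/-- The Zariski closure of the matrix `P` in `GL_n`, over `ℚ̄`. -/
def closure (P : Matrix (Fin n) (Fin n) ℂ) : Set (GL (Fin n) ℂ) :=
  {F | ∀ p : MvPolynomial (Fin n × Fin n) QBar, IsZero p P →
    IsZero p (F : Matrix (Fin n) (Fin n) ℂ)}

/-! ### The proof -/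

theorem RigidCentre.toRigid {g' : ℕ} {C : AbVar g'} (hz : RigidCentre C) : N208.CT.Rigid C := by
  intro X hX hg Y hY
  refine dom_of_matrix (hz X ⟨hX.1, hX.2⟩ (fun T hT hTX Z hZ => ?_) Y ⟨hY.1, hY.2⟩)
  exact hg T hT hTX Z ⟨hZ.1, hZ.2⟩

theorem complexStructure_eq (A : AbVar g) :
    complexStructure A = Run7.h358.A1.cR (Run7.h358.A1.JM A) := by
  ext i j
  change ((A.lam.repr (Complex.I • A.lam j) i : ℝ) : ℂ) =
    algebraMap ℝ ℂ (LinearMap.toMatrix A.lam A.lam AbVar.JJ i j)
  rw [LinearMap.toMatrix_apply]
  rfl

theorem TypeA1.toWeak (h : TypeA1 A) : ∃ (n : ℕ)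
    (φ : Fin n → Matrix (Fin 2) (Fin 2) ℂ →ₗ[ℂ] Matrix (Fin (2 * g)) (Fin (2 * g)) ℂ),
    Run7.h358.A1.WeakA1 A φ := by
  obtain ⟨n, φ, h1, h2, h3, h4, h5, h6⟩ := h
  refine ⟨n, φ, ⟨h1, h2, h3, h4, h5⟩, fun i k hik => ?_⟩
  rcases h6 i k hik with h7 | ⟨σ, h7⟩
  · exact Or.inl h7
  · right
    refine ⟨σ, ?_⟩
    unfold CompactAt at h7
    rw [complexStructure_eq] at h7
    exact h7

/-- The theorem on one group `G` with a torsor over `ℚ̄` (`MP_f11a48_ag.TypeA1Motives`). -/
theorem main {g s n : ℕ} (A : AbVar g) (hA : TypeA1 A) (r : Fin s → ℕ) (w : Fin s → ℤ)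
    (B : Fin n → Tensors A r) (P : Matrix (Fin n) (Fin n) ℂ) (hM : IsMotive w B P)
    (G : Subgroup (GL (Fin n) ℂ)) (hG : IsAlgebraicSubgroup G) (T : Matrix (Fin n) (Fin n) ℂ)
    (hT : ∀ i j, IsAlgebraic ℚ (T i j)) (hP : P ∈ torsor G T) :
    (∀ X ∈ derivedLie A, ∀ N, IsLieMatrix B X N → ∀ t : ℂ, ∃ x ∈ G,
      (x : Matrix (Fin n) (Fin n) ℂ) = NormedSpace.exp (t • N.map fun q => (q : ℂ))) ∧
    (ControlledCentre A → mumfordTate w B ≤ G) := by
  have hwr : ∀ W : Matrix (Fin n) (Fin n) ℚ, (∀ a i v,
      ((r i : ℚ) - 2 * w i) * B a i v = ∑ b, W b a * B b i v) → N208.AM.WRel w B W := by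
    intro W h a i
    refine MultilinearMap.ext fun v => ?_
    rw [_root_.smul_apply, _root_.sum_apply, smul_eq_mul, h a i v]
    rfl
  obtain ⟨hM', Wt, hW⟩ : N208.AM.Mot w B P ∧ ∃ Wt, N208.AM.WRel w B Wt := by
    have hwt : ∃ M, N208.AM.WRel w B M := by
      obtain ⟨M, h⟩ := hM.weight
      exact ⟨M, hwr M h⟩
    refine ⟨⟨hM.basis, fun X hX => ?_, hwt, hM.det, hM.deRham⟩, hwt⟩
    obtain ⟨M, h⟩ := hM.lie X hX
    refine ⟨M, fun a i => MultilinearMap.ext fun v => ?_⟩
    rw [N208.AM.dact_apply, _root_.sum_apply, h a i v]
    rfl
  have hrelL : ∀ X M, IsLieMatrix B X M → N208.AM.Rel B X M := by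
    intro X M h a i
    refine MultilinearMap.ext fun v => ?_
    rw [N208.AM.dact_apply, _root_.sum_apply, h a i v]
    rfl
  have hb : ∀ j : Fin (2 * g), A.bas j = Pi.single j 1 := fun j => by
    unfold AbVar.bas
    rw [Pi.basisFun_apply]
  have hrel : ∀ z R, N208.AM.HRel w B z R → IsHodgeMatrix w B z R := by
    intro z R h a i j
    have h1 := h a i j
    simp only [hb] at h1
    exact h1
  -- the group
  have hdet : T.det ≠ 0 := by
    obtain ⟨x, -, hxT⟩ := hP
    intro h0
    have h1 : (x : Matrix (Fin n) (Fin n) ℂ).det = 0 := by
      rw [hxT, Matrix.det_mul, h0, mul_zero]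
    exact (Matrix.GeneralLinearGroup.det x).ne_zero h1
  obtain ⟨T', h1, h2⟩ := Pool.Agent.R917.alg_inv hT hdet
  obtain ⟨x, hx, hxT⟩ := hP
  have hH : N208.AM.PtM P _ := ⟨Pool.Agent.R917.algGrp_of hG, T, T', h1, h2, x, hx, hxT⟩
  obtain ⟨k, φ, hφ⟩ := hA.toWeak
  have hL := hφ.derFull
  refine ⟨fun X hX N hN t => ?_, fun hz => ?_⟩
  · have hX' : X ∈ der A.NA := by
      refine (Submodule.span_mono ?_) hX
      rintro _ ⟨X, hX, Y, hY, rfl⟩
      exact ⟨X, hX, Y, hY, rfl⟩
    exact Pool.Agent.R917.exp_mem hH.grp fun d =>
      (hL.der_LQ hM' hW hH hX' (hrelL X N hN) d).smul t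
  · -- the centre
    have hcen : ∀ Y ∈ A.CN, ∀ M : Matrix (Fin n) (Fin n) ℚ, N208.AM.Rel B Y M →
        M ∈ N208.AM.LQ {M : Matrix (Fin n) (Fin n) ℂ | ∃ x ∈ G,
          (x : Matrix (Fin n) (Fin n) ℂ) = M} := by
      intro Y hY M hM
      obtain ⟨g', C, f, p, hf, hr, hc⟩ := hz
      obtain ⟨X, hX, hXY⟩ := hc Y ⟨hY.1, hY.2⟩
      exact Run7.h358.U2.cen_fac (f := f) (p := p)
        ⟨hf.inclusion.2, hf.projection.2, hf.projection.1, hf.split⟩ hM' hW hH hr.toRigid
        ⟨X, ⟨hX.1, hX.2⟩, hXY⟩ hM
    -- the complex structure
    obtain ⟨N, hN, -⟩ := N208.AM.exists_J hM'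
    refine sInf_le ⟨hG, fun u hu => ?_⟩
    obtain ⟨⟨y, hy, hy'⟩, h4⟩ := hL.main hM' hW hH hcen hN hu
    refine ⟨y, hy, ?_⟩
    rw [hy']
    exact hrel _ _ h4

/-- **Theorem.** Let `A` be an abelian variety over `ℚ̄` whose Hodge group is of type `A_1`. Let `M` be a
motive in the tensor category generated by the motive `h^1(A)` and the Tate motives, with the matrix `P`
of periods. Let `G` be an algebraic group over `ℚ` such that the Zariski closure of `P` over `ℚ̄` is
contained in a coset of `G`.

1. If `X` is an element of the derived algebra of the Lie algebra of the Hodge group of `A`, and `N` is the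
   matrix of its action on `M`, then `exp (t N)` is in `G` for all complex numbers `t`.
2. If the condition `ControlledCentre` is satisfied, then the Mumford-Tate group of `M` is
   contained in `G`. -/
theorem result {g s n : ℕ} (A : AbVar g) (hA : TypeA1 A) (r : Fin s → ℕ) (w : Fin s → ℤ)
    (B : Fin n → Tensors A r) (P : Matrix (Fin n) (Fin n) ℂ) (hM : IsMotive w B P)
    (G : Subgroup (GL (Fin n) ℂ)) (hG : IsAlgebraicSubgroup G)
    (hZ : ∀ F ∈ closure P, ∀ F' ∈ closure P, F * F'⁻¹ ∈ G) :
    (∀ X ∈ derivedLie A, ∀ N, IsLieMatrix B X N → ∀ t : ℂ, ∃ x ∈ G,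
      (x : Matrix (Fin n) (Fin n) ℂ) = NormedSpace.exp (t • N.map fun q => (q : ℂ))) ∧
    (ControlledCentre A → mumfordTate w B ≤ G) := by
  obtain ⟨F, T, x₀, hF, hFT, hT, hx₀, -⟩ := Run7.h358.A1.exists_base hM.det
  have hTF : T * F = 1 := mul_eq_one_comm.1 hFT
  obtain ⟨P', hP'⟩ : ∃ P' : GL (Fin n) ℂ, (P' : Matrix (Fin n) (Fin n) ℂ) = P :=
    ⟨Matrix.GeneralLinearGroup.mkOfDetNeZero P hM.det, rfl⟩
  obtain ⟨F', hF'⟩ : ∃ F' : GL (Fin n) ℂ, (F' : Matrix (Fin n) (Fin n) ℂ) = F :=
    ⟨⟨F, T, hFT, hTF⟩, rfl⟩
  have h1 : P' ∈ closure P := fun p hp => by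
    rw [hP']
    exact hp
  have h2 : F' ∈ closure P := fun p hp => by
    rw [hF']
    exact hF p hp
  have h3 := hZ P' h1 F' h2
  have h4 : ((P' * F'⁻¹ : GL (Fin n) ℂ) : Matrix (Fin n) (Fin n) ℂ) = P * T := by
    have h5 : ((F'⁻¹ : GL (Fin n) ℂ) : Matrix (Fin n) (Fin n) ℂ) = T := by
      have h6 : ((F'⁻¹ : GL (Fin n) ℂ) : Matrix (Fin n) (Fin n) ℂ) * F = 1 := by
        rw [← hF']
        exact F'.inv_val
      calc ((F'⁻¹ : GL (Fin n) ℂ) : Matrix (Fin n) (Fin n) ℂ)
          = ((F'⁻¹ : GL (Fin n) ℂ) : Matrix (Fin n) (Fin n) ℂ) * (F * T) := by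
            rw [hFT, Matrix.mul_one]
        _ = T := by rw [← Matrix.mul_assoc, h6, Matrix.one_mul]
    rw [Units.val_mul, hP', h5]
  exact main A hA r w B P hM G hG T (fun i j => mem_algebraicClosure_iff.1 (hT i j))
    ⟨_, h3, h4⟩

end Pool.Agent.Results.MP_cbf1af_ag.TypeA1Closures
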